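import Mathlib
import Pool.Agent.H990R2.SF.PWAbs

/-!
Task A2 for helper990: negative correlation of disjoint pairs from the structure `PWGood`.
-/

set_option autoImplicit false

namespace H990SF

open Finset

namespace A2H

variable {V : Type*} [DecidableEq V]

lemma mrg_apply (x : V → ℝ) (c d v : V) :
    mrg x c d v = if v = d then 0 else if v = c then x c + x d else x v := by
  unfold mrg
  by_cases h1 : v = d
  · subst h1; simp
  · by_cases h2 : v = c
    · subst h2; simp [Function.update_of_ne h1, h1]
    · simp [Function.update_of_ne h1, Function.update_of_ne h2, h1, h2]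

lemma mrg_nonneg {x : V → ℝ} (hx : ∀ v, 0 ≤ x v) (c d : V) : ∀ v, 0 ≤ mrg x c d v := by
  intro v
  rw [mrg_apply]
  split_ifs
  · exact le_refl 0
  · exact add_nonneg (hx c) (hx d)
  · exact hx v

lemma mrg_zero_right {x : V → ℝ} {c d : V} (h : x d = 0) : mrg x c d = x := by
  funext v
  rw [mrg_apply]
  split_ifs with h1 h2
  · rw [h1, h]
  · rw [h2, h, add_zero]
  · rfl

lemma mrg_zero_left {x : V → ℝ} {c d : V} (hcd : c ≠ d) (h : x c = 0) :
    mrg x c d = x ∘ (Equiv.swap c d) := by
  funext v
  rw [mrg_apply]
  simp only [Function.comp]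
  split_ifs with h1 h2
  · rw [h1, Equiv.swap_apply_right, h]
  · rw [h2, Equiv.swap_apply_left, h, zero_add]
  · rw [Equiv.swap_apply_of_ne_of_ne h2 h1]

lemma mrg_swap (x : V → ℝ) {c d : V} (hcd : c ≠ d) :
    mrg x c d = (mrg x d c) ∘ (Equiv.swap c d) := by
  funext v
  simp only [Function.comp]
  by_cases h1 : v = d
  · subst h1
    rw [Equiv.swap_apply_right, mrg_apply, mrg_apply]
    simp
  · by_cases h2 : v = c
    · subst h2
      rw [Equiv.swap_apply_left, mrg_apply, mrg_apply]
      simp [h1, Ne.symm h1, hcd, add_comm]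
    · rw [Equiv.swap_apply_of_ne_of_ne h2 h1, mrg_apply, mrg_apply]
      simp [h1, h2]

lemma mrg_comm (x : V → ℝ) {a b c d : V} (hac : a ≠ c) (had : a ≠ d) (hbc : b ≠ c)
    (hbd : b ≠ d) : mrg (mrg x a b) c d = mrg (mrg x c d) a b := by
  funext v
  simp only [mrg_apply]
  by_cases h1 : v = d
  · subst h1
    simp [had.symm, hbd.symm]
  · by_cases h2 : v = c
    · subst h2
      simp [hac.symm, hbc.symm, had.symm, hbd.symm]
    · by_cases h3 : v = b
      · subst h3
        simp [h1, h2]
      · by_cases h4 : v = a
        · subst h4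
          simp [h1, h2, hac, had, hbc, hbd]
        · simp [h1, h2, h3, h4]

lemma mrg_three (z : V → ℝ) {a b c : V} (hab : a ≠ b) (hac : a ≠ c) (hbc : b ≠ c) :
    mrg (mrg z b a) b c = (mrg (mrg z a b) c a) ∘ (Equiv.swap b c) := by
  funext v
  simp only [Function.comp]
  by_cases h1 : v = b
  · subst h1
    rw [Equiv.swap_apply_left]
    simp only [mrg_apply]
    simp [hab, hab.symm, hac, hac.symm, hbc, hbc.symm]
    ring
  · by_cases h2 : v = c
    · subst h2
      rw [Equiv.swap_apply_right]
      simp only [mrg_apply]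
      simp [hab, hab.symm, hac, hac.symm, hbc, hbc.symm]
    · rw [Equiv.swap_apply_of_ne_of_ne h1 h2]
      simp only [mrg_apply]
      by_cases h3 : v = a
      · subst h3
        simp [hab, hac]
      · simp [h1, h2, h3]

end A2H

open A2H

theorem pw_A2 {V : Type*} [Fintype V] [DecidableEq V] : PW_A2 V := by
  intro hA1 M hM
  have symm_mrg : ∀ (x : V → ℝ) {c d : V}, c ≠ d → M (mrg x c d) = M (mrg x d c) := by
    intro x c d hcd
    rw [mrg_swap x hcd, hM.symm]
  have key : ∀ n : ℕ, ∀ x : V → ℝ, (univ.filter (fun v => x v ≠ 0)).card = n →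
      (∀ v, 0 ≤ x v) → ∀ a b c d : V,
      a ≠ b → a ≠ c → a ≠ d → b ≠ c → b ≠ d → c ≠ d →
      M x * M (mrg (mrg x a b) c d) ≤ M (mrg x a b) * M (mrg x c d) := by
    intro n
    induction n using Nat.strong_induction_on with
    | _ n ih =>
    intro x hn hx a b c d hab hac had hbc hbd hcd
    by_cases hd0 : x d = 0
    · have h1 : mrg x c d = x := mrg_zero_right hd0
      have h2 : mrg (mrg x a b) c d = mrg x a b := by
        apply mrg_zero_right
        rw [mrg_apply]; simp [had.symm, hbd.symm, hd0]
      rw [h1, h2, mul_comm]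
    by_cases hc0 : x c = 0
    · have h1 : M (mrg x c d) = M x := by rw [mrg_zero_left hcd hc0, hM.symm]
      have h2 : M (mrg (mrg x a b) c d) = M (mrg x a b) := by
        rw [mrg_zero_left hcd, hM.symm]
        rw [mrg_apply]; simp [hac.symm, hbc.symm, hc0]
      rw [h1, h2, mul_comm]
    have hcpos : 0 < x c := lt_of_le_of_ne (hx c) (Ne.symm hc0)
    have hdpos : 0 < x d := lt_of_le_of_ne (hx d) (Ne.symm hd0)
    set z := mrg x c d with hz
    set y := mrg x a b with hy
    have hz0 : ∀ v, 0 ≤ z v := mrg_nonneg hx c d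
    have hy0 : ∀ v, 0 ≤ y v := mrg_nonneg hx a b
    have hyc : y c = x c := by rw [hy, mrg_apply]; simp [hac.symm, hbc.symm]
    have hyd : y d = x d := by rw [hy, mrg_apply]; simp [had.symm, hbd.symm]
    have hya : y a = x a + x b := by rw [hy, mrg_apply]; simp [hab]
    have hyb : y b = 0 := by rw [hy, mrg_apply]; simp
    have hw : mrg y c d = mrg z a b := mrg_comm x hac had hbc hbd
    set w := mrg z a b with hwd
    have hcard : (univ.filter (fun v => z v ≠ 0)).card < n := by
      rw [← hn]
      apply Finset.card_lt_card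
      rw [Finset.ssubset_iff_of_subset]
      · refine ⟨d, by simp [hd0], ?_⟩
        simp [hz, mrg_apply]
      · intro v hv
        simp only [Finset.mem_filter, Finset.mem_univ, true_and] at hv ⊢
        intro hv0
        apply hv
        rw [hz, mrg_apply]
        by_cases h1 : v = d
        · simp [h1]
        · by_cases h2 : v = c
          · exact absurd (h2 ▸ hv0) hc0
          · simp [h1, h2, hv0]
    have e1 := hA1 M hM x hx c d hcd
    have e2 := hA1 M hM y hy0 c d hcd
    rw [hyc, hyd, hw] at e2
    rw [← hz] at e1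
    rw [hw]
    -- split the two sums at a and b
    have hS : (univ \ {c, d} : Finset V) = insert a (insert b (univ \ {a, b, c, d})) := by
      ext v
      simp only [Finset.mem_sdiff, Finset.mem_univ, true_and, Finset.mem_insert,
        Finset.mem_singleton, not_or]
      by_cases h3 : v = a
      · subst h3; simp [hac, had]
      · by_cases h4 : v = b
        · subst h4; simp [hbc, hbd]
        · simp [h3, h4]
    have hsplit : ∀ f : V → ℝ, ∑ v ∈ (univ \ {c, d} : Finset V), f v =
        f a + (f b + ∑ v ∈ (univ \ {a, b, c, d} : Finset V), f v) := by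
      intro f
      rw [hS, Finset.sum_insert (by simp [hab]), Finset.sum_insert (by simp)]
    rw [hsplit] at e1 e2
    rw [hya, hyb] at e2
    have hR : ∑ v ∈ (univ \ {a, b, c, d} : Finset V), y v * (M w - M (mrg w c v)) =
        ∑ v ∈ (univ \ {a, b, c, d} : Finset V), x v * (M w - M (mrg w c v)) := by
      apply Finset.sum_congr rfl
      intro v hv
      simp only [Finset.mem_sdiff, Finset.mem_univ, true_and, Finset.mem_insert,
        Finset.mem_singleton, not_or] at hv
      rw [hy, mrg_apply]
      simp [hv.1, hv.2.1]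
    rw [hR] at e2
    have hsum : 0 ≤ (∑ v ∈ (univ \ {a, b, c, d} : Finset V), x v * (M w - M (mrg w c v))) * M z
        - (∑ v ∈ (univ \ {a, b, c, d} : Finset V), x v * (M z - M (mrg z c v))) * M w := by
      rw [Finset.sum_mul, Finset.sum_mul, ← Finset.sum_sub_distrib]
      apply Finset.sum_nonneg
      intro v hv
      simp only [Finset.mem_sdiff, Finset.mem_univ, true_and, Finset.mem_insert,
        Finset.mem_singleton, not_or] at hv
      have h := ih _ hcard z rfl hz0 a b c v hab hac (Ne.symm hv.1) hbc (Ne.symm hv.2.1)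
        (Ne.symm hv.2.2.1)
      rw [← hwd] at h
      have h2 := mul_nonneg (hx v) (sub_nonneg.mpr h)
      nlinarith [h2]
    have hta : 0 ≤ x a * (M (mrg z c a) * M w - M (mrg w c a) * M z) := by
      apply mul_nonneg (hx a)
      have h := hM.adj z hz0 a b c hab hac hbc
      rw [← hwd, symm_mrg w hac, symm_mrg z hac] at h
      linarith
    have htb : 0 ≤ x b * (M (mrg z c b) * M w - M (mrg w c a) * M z) := by
      apply mul_nonneg (hx b)
      have h := hM.adj z hz0 b a c (Ne.symm hab) hbc hac
      rw [symm_mrg z hbc, symm_mrg z (Ne.symm hab), mrg_three z hab hac hbc, hM.symm, ← hwd] at h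
      linarith
    have hg : 0 < x c + x d := by linarith
    have hprod : 0 ≤ x c * x d := by positivity
    have main : (x c + x d) * (M y * M z - M x * M w) =
        x c * x d * (((∑ v ∈ (univ \ {a, b, c, d} : Finset V), x v * (M w - M (mrg w c v))) * M z
        - (∑ v ∈ (univ \ {a, b, c, d} : Finset V), x v * (M z - M (mrg z c v))) * M w)
        + x a * (M (mrg z c a) * M w - M (mrg w c a) * M z)
        + x b * (M (mrg z c b) * M w - M (mrg w c a) * M z)) := by
      linear_combination M z * e2 - M w * e1
    have hnn : 0 ≤ (x c + x d) * (M y * M z - M x * M w) := by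
      rw [main]
      apply mul_nonneg hprod
      linarith
    have := nonneg_of_mul_nonneg_right hnn hg
    linarith
  intro x hx a b c d
  exact key _ x rfl hx a b c d

end H990SF
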